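import Pool.Agent.Helper98.LC.C.Conseq

/-!
# LC-F01: sums over the two sides of the edges

`Oi i := (corners c n i).filter (enb c · = o)` are the outer edges of the class `i`.
`eopp c` is an involution of all corner darts (`eopp_corner`, `eopp_eopp`) which exchanges `c d.1` and `enb c d`.
* `sum_inner_zero`: `eopp` is an involution of the set of the corner darts with `c d.1 ≠ o`, `enb c d ≠ o` and `ebul` is odd.
* `sum_outer`: `eopp` is a bijection from the corner darts with `c d.1 ≠ o`, `enb c d = o` to `corners c n o` (a corner dart with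
  `c d.1 = o` has `enb c d ≠ o` by `enb_ne`).
* `per2_edges`: `per2_eq`, `per_eq`, split off the class `o`.
-/

namespace Pool.Agent.Helper98.LC

open Finset Real

variable {ι : Type} [DecidableEq ι]

private theorem cn_mem_all {c : V → ι} {o : ι} {n : ℕ} (h : OutBox c o n) (d : V × Fin 6) :
    d ∈ allCorners c n ↔ IsCorner c d := by
  unfold allCorners
  rw [mem_filter, mem_darts h]
  exact ⟨fun hh => hh.2, fun hh => ⟨hh.1, hh⟩⟩

theorem sum_inner_zero [Fintype ι] (G : Net) {c : V → ι} {o : ι} {n : ℕ} (h : OutBox c o n) :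
    ∑ i ∈ univ.filter (fun i => i ≠ o),
      ∑ d ∈ corners c n i \ (corners c n i).filter (fun d => enb c d = o), ebul G c d = 0 := by
  set S : Finset (V × Fin 6) := (allCorners c n).filter (fun d => c d.1 ≠ o ∧ enb c d ≠ o) with hS
  have hmem : ∀ d, d ∈ S ↔ IsCorner c d ∧ c d.1 ≠ o ∧ enb c d ≠ o := by
    intro d
    rw [hS, mem_filter, cn_mem_all h]
  have h1 : ∑ i ∈ univ.filter (fun i => i ≠ o),
      ∑ d ∈ corners c n i \ (corners c n i).filter (fun d => enb c d = o), ebul G c d =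
      ∑ d ∈ S, ebul G c d := by
    rw [← sum_fiberwise_of_maps_to (s := S) (t := univ.filter (fun i => i ≠ o))
      (g := fun d => c d.1) (fun d hd => mem_filter.2 ⟨mem_univ _, ((hmem d).1 hd).2.1⟩)]
    refine sum_congr rfl fun i hi => sum_congr ?_ fun _ _ => rfl
    have hi' : i ≠ o := (mem_filter.1 hi).2
    ext d
    rw [mem_sdiff, mem_filter, mem_filter, hmem, mem_corners h]
    constructor
    · rintro ⟨⟨h2, h3⟩, h4⟩
      refine ⟨⟨h2, by rw [h3]; exact hi', fun h5 => h4 ⟨⟨h2, h3⟩, h5⟩⟩, h3⟩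
    · rintro ⟨⟨h2, _, h4⟩, h3⟩
      exact ⟨⟨h2, h3⟩, fun h5 => h4 h5.2⟩
  rw [h1]
  refine sum_involution (fun d _ => eopp c d) ?_ ?_ ?_ ?_
  · intro d hd
    rw [ebul_eopp G h ((hmem d).1 hd).1]
    ring
  · intro d hd hne heq
    have h2 := ebul_eopp G h ((hmem d).1 hd).1
    rw [heq] at h2
    apply hne
    linarith
  · intro d hd
    obtain ⟨h2, h3, h4⟩ := (hmem d).1 hd
    obtain ⟨h5, h6, h7, _⟩ := eopp_corner h h2
    exact (hmem _).2 ⟨h5, by rw [h6]; exact h4, by rw [h7]; exact h3⟩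
  · intro d hd
    exact eopp_eopp h ((hmem d).1 hd).1

theorem sum_outer [Fintype ι] {c : V → ι} {o : ι} {n : ℕ} (h : OutBox c o n)
    (f : V × Fin 6 → ℝ) :
    ∑ i ∈ univ.filter (fun i => i ≠ o),
      ∑ d ∈ (corners c n i).filter (fun d => enb c d = o), f (eopp c d) =
      ∑ d ∈ corners c n o, f d := by
  set S : Finset (V × Fin 6) := (allCorners c n).filter (fun d => c d.1 ≠ o ∧ enb c d = o) with hS
  have hmem : ∀ d, d ∈ S ↔ IsCorner c d ∧ c d.1 ≠ o ∧ enb c d = o := by
    intro d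
    rw [hS, mem_filter, cn_mem_all h]
  have h1 : ∑ i ∈ univ.filter (fun i => i ≠ o),
      ∑ d ∈ (corners c n i).filter (fun d => enb c d = o), f (eopp c d) =
      ∑ d ∈ S, f (eopp c d) := by
    rw [← sum_fiberwise_of_maps_to (s := S) (t := univ.filter (fun i => i ≠ o))
      (g := fun d => c d.1) (fun d hd => mem_filter.2 ⟨mem_univ _, ((hmem d).1 hd).2.1⟩)]
    refine sum_congr rfl fun i hi => sum_congr ?_ fun _ _ => rfl
    have hi' : i ≠ o := (mem_filter.1 hi).2
    ext d
    rw [mem_filter, mem_filter, hmem, mem_corners h]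
    constructor
    · rintro ⟨⟨h2, h3⟩, h4⟩
      exact ⟨⟨h2, by rw [h3]; exact hi', h4⟩, h3⟩
    · rintro ⟨⟨h2, _, h4⟩, h3⟩
      exact ⟨⟨h2, h3⟩, h4⟩
  rw [h1]
  refine sum_nbij' (fun d => eopp c d) (fun d => eopp c d) ?_ ?_ ?_ ?_ ?_
  · intro d hd
    obtain ⟨h2, _, h4⟩ := (hmem d).1 hd
    obtain ⟨h5, h6, _, _⟩ := eopp_corner h h2
    exact (mem_corners h o _).2 ⟨h5, h6.trans h4⟩
  · intro d hd
    obtain ⟨h2, h3⟩ := (mem_corners h o _).1 hd
    obtain ⟨h5, h6, h7, _⟩ := eopp_corner h h2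
    refine (hmem _).2 ⟨h5, ?_, h7.trans h3⟩
    rw [h6, ← h3]
    exact enb_ne h2
  · intro d hd
    exact eopp_eopp h ((hmem d).1 hd).1
  · intro d hd
    exact eopp_eopp h ((mem_corners h o _).1 hd).1
  · intro d _
    rfl

theorem card_outer [Fintype ι] {c : V → ι} {o : ι} {n : ℕ} (h : OutBox c o n) :
    ∑ i ∈ univ.filter (fun i => i ≠ o), ((corners c n i).filter (fun d => enb c d = o)).card =
      (corners c n o).card := by
  have h1 := sum_outer h (fun _ => (1 : ℝ))
  simp only [sum_const, nsmul_eq_mul, mul_one] at h1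
  exact_mod_cast h1

theorem per2_edges [Fintype ι] (G : Net) {c : V → ι} {o : ι} {n : ℕ} (h : OutBox c o n)
    (hl : NoLoop c) :
    per2 G c n = ∑ i ∈ univ.filter (fun i => i ≠ o), ∑ d ∈ corners c n i, elen G c d +
      ∑ d ∈ corners c n o, elen G c d := by
  have h1 : per2 G c n = ∑ i, ∑ d ∈ corners c n i, elen G c d := by
    rw [per2_eq]
    exact sum_congr rfl fun i _ => per_eq G h hl i
  rw [h1, ← sum_filter_add_sum_filter_not univ (fun i => i ≠ o)]
  congr 1
  have h3 : univ.filter (fun i : ι => ¬ i ≠ o) = {o} := by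
    ext i
    simp
  rw [h3, sum_singleton]

end Pool.Agent.Helper98.LC
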