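import Pool.Agent.Helper98.LC.F.Sum
import Pool.Agent.Helper98.LC.C.Face

/-!
# LC-F03: the curve around the cluster

`outer_curve` with `R = {d ∈ corners c n o | ar (enb c d) < 2}`: the right side is `(∑ lam)²`.  For `d ∈ R` let `i = enb c d ≠ o`
(`enb_ne`), `d' = eopp c d ∈ corners c n i`, `enb c d' = o`: `elen d = elen d' ≤ 3 + a_i / 20 ≤ 3.1` (`elen_le_outer`, `a_i < 2`, `η ≤ 1/10`) and
`faceFacts` for `i`, field `dido` with `M = 2` (`cos (π/2) = 0`): `2 π A0 |ebul d'| ≤ (elen d')²`, `2 π A0 ≥ 16`, so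
`|ebul d| = |ebul d'| ≤ 3.1 elen d / 16 ≤ elen d / 5` (`ebul_eopp`, `elen_eopp`, `elen ≥ 0`).
-/

namespace Pool.Agent.Helper98.LC

open Finset Real Pool.Agent.Helper38.LC2

variable {ι : Type} [DecidableEq ι]

private theorem cv_elen_nonneg (G : Net) (c : V → ι) (d : V × Fin 6) : 0 ≤ elen G c d := by
  unfold elen
  exact sum_nonneg fun j _ => w_nonneg G _

private theorem cv_echd_nonneg (G : Net) (c : V → ι) (d : V × Fin 6) : 0 ≤ echd G c d := by
  unfold echd
  exact norm_nonneg _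

omit [DecidableEq ι] in
private theorem cv_A0 : 0 < A0 := by
  unfold A0
  positivity

omit [DecidableEq ι] in
private theorem cv_const : (16 : ℝ) ≤ 2 * π * A0 := by
  unfold A0
  have h1 : (3.14 : ℝ) < π := Real.pi_gt_d2
  have h2 : (1.73 : ℝ) ≤ √3 := by
    refine Real.le_sqrt_of_sq_le ?_
    norm_num
  nlinarith

private theorem cv_bul [Fintype ι] {G : Net} {c : V → ι} {o : ι} {n : ℕ} {η : ℝ} (hη : 0 ≤ η)
    (hη1 : η ≤ 1 / 10) (h : Minimal G c o n η) (hl : NoLoop c) {d : V × Fin 6}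
    (hd : d ∈ corners c n o) (hsm : ar G c n (enb c d) < 2) :
    |ebul G c d| ≤ elen G c d / 5 := by
  obtain ⟨hc, hco⟩ := (mem_corners h.out o d).1 hd
  obtain ⟨e1, e2, e3, _⟩ := eopp_corner h.out hc
  have hi : enb c d ≠ o := by
    rw [← hco]
    exact enb_ne hc
  have hd' : eopp c d ∈ corners c n (enb c d) := (mem_corners h.out _ _).2 ⟨e1, e2⟩
  have h1 := elen_le_outer h hi hd' (e3.trans hco)
  have h2 := (faceFacts G h.out hl hi).dido _ hd' 2 le_rfl
  rw [elen_eopp G h.out hc] at h1 h2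
  rw [ebul_eopp G h.out hc, abs_neg] at h2
  have h3 : η * ar G c n (enb c d) ≤ 1 / 10 * 2 := by
    have h4 : η * ar G c n (enb c d) ≤ η * 2 := mul_le_mul_of_nonneg_left hsm.le hη
    linarith
  have h5 : min 1 (ar G c n (enb c d)) ≤ 1 := min_le_left _ _
  have h6 : elen G c d ≤ 3.1 := by linarith
  have h0 := cv_elen_nonneg G c d
  have h7 : ((2 : ℕ) : ℝ) = 2 := by norm_num
  rw [h7, Real.cos_pi_div_two, zero_div, mul_zero, zero_mul, zero_add] at h2
  have h8 : 16 * |ebul G c d| ≤ elen G c d ^ 2 := by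
    have h9 : 16 * |ebul G c d| ≤ 2 * π * A0 * |ebul G c d| :=
      mul_le_mul_of_nonneg_right cv_const (abs_nonneg _)
    have h10 : 2 * π * A0 * |ebul G c d| = 4 * π / 2 * (A0 * |ebul G c d|) := by ring
    linarith
  nlinarith

theorem curve_bound [Fintype ι] {G : Net} {c : V → ι} {o : ι} {n : ℕ} {η : ℝ} (hη : 0 ≤ η)
    (hη1 : η ≤ 1 / 10) (h : Minimal G c o n η) (hl : NoLoop c) :
    4 * π * (A0 * (tot G c o n - (∑ d ∈ corners c n o, elen G c d) / 5)) ≤
      (∑ d ∈ corners c n o, lam G c n d) ^ 2 := by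
  classical
  set R : Finset (V × Fin 6) := (corners c n o).filter (fun d => ar G c n (enb c d) < 2) with hR
  have hRs : R ⊆ corners c n o := filter_subset _ _
  have h1 := outer_curve G h.out hl R hRs
  have h2 : ∑ d ∈ corners c n o \ R, elen G c d + ∑ d ∈ R, echd G c d =
      ∑ d ∈ corners c n o, lam G c n d := by
    rw [← sum_sdiff hRs (f := fun d => lam G c n d)]
    congr 1
    · refine sum_congr rfl fun d hd => ?_
      rw [mem_sdiff, hR, mem_filter, not_and] at hd
      unfold lam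
      rw [if_neg (hd.2 hd.1)]
    · refine sum_congr rfl fun d hd => ?_
      rw [hR, mem_filter] at hd
      unfold lam
      rw [if_pos hd.2]
  rw [h2] at h1
  refine le_trans (mul_le_mul_of_nonneg_left (mul_le_mul_of_nonneg_left ?_ cv_A0.le)
    (by positivity)) h1
  have h3 : ∑ d ∈ R, |ebul G c d| ≤ ∑ d ∈ R, elen G c d / 5 := by
    refine sum_le_sum fun d hd => ?_
    rw [hR, mem_filter] at hd
    exact cv_bul hη hη1 h hl hd.1 hd.2
  have h4 : ∑ d ∈ R, elen G c d / 5 ≤ ∑ d ∈ corners c n o, elen G c d / 5 :=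
    sum_le_sum_of_subset_of_nonneg hRs fun d _ _ =>
      div_nonneg (cv_elen_nonneg G c d) (by norm_num)
  have h5 : ∑ d ∈ corners c n o, elen G c d / 5 = (∑ d ∈ corners c n o, elen G c d) / 5 :=
    (sum_div _ _ _).symm
  linarith

theorem lam_nonneg (G : Net) (c : V → ι) (n : ℕ) (d : V × Fin 6) : 0 ≤ lam G c n d := by
  unfold lam
  split_ifs
  · exact cv_echd_nonneg G c d
  · exact cv_elen_nonneg G c d

end Pool.Agent.Helper98.LC
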