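import Pool.Agent.Helper98.LC.F.Curve
import Pool.Agent.Helper98.LC.C.Minimizer
import Pool.Agent.Helper98.LC.B.Comp

/-!
# LC-F04: the model theorem

* `model_conn`: connected classes.  Let `T = tot c₀`.  If `T < 3600`: `6 ∑ min 1 a ≤ 6 T ≤ 21600` and `5.96 √T ≤ 357.6`, `per2 ≥ 0`.
  Let `T ≥ 3600`, `η = 5.96 / √T ≤ 1/10`, `η √T = 5.96 ≤ 6`, `c` from `exists_minimal`, `X = tot c ≤ T`, `Ψ = per2 c - 6 ∑ min 1 (a_i)`, so
  `Phi c = Ψ - η X`.  Claim: `Ψ + η (T - X) ≥ 5.96 √T - 357600`.  (Then `Phi c₀ ≥ Phi c ≥ - η T + 5.96 √T - 357600` and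
  `Phi c₀ = per2 c₀ - 6 ∑ min 1 a - η T`.)
  - If all `c x = o`: `X = 0` (empty sums), `Ψ ≥ 0`, `η T = 5.96 √T`.
  - Otherwise `no_loop'`, `sum_local`: `Ψ ≥ kap Λ + kap1 L`, `Λ = ∑ lam ≥ 0`, `L = ∑ elen ≥ 0` over `corners c n o`, `curve_bound`: `Λ² ≥ 4 π A0 (X - L/5)`.
    If `Ψ ≥ 6 √T`: clear (`T ≥ X`).  If `Ψ < 6 √T`: `kap1 = 2/100000`, `L ≤ 300000 √T`, so `Λ² ≥ 4 π A0 X'`, `X' = X - 60000 √T`.  If `X' ≤ 0`:
    `η (T - X) ≥ 5.96 (√T - 60000)`.  If `X' > 0`: `kap Λ ≥ 5.96 √X' ≥ 5.96 X' / √T` (`kap² 4 π A0 ≥ 5.96²`: `kap = 1.04308956...`, `4 π A0 = 6 √3 π ≥ 32.6483`;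
    `X' ≤ T`), and `5.96 X'/√T + 5.96 (T - X)/√T = 5.96 √T - 5.96 * 60000`.
* `model`: `exists_comp` for `l`, `o = 0`; `model_conn` for the component partition `c`; `∑ i ≠ o', min 1 (ar i) ≥ ∑ j ≠ 0, ∑ (g i = j), min 1 (ar i) ≥ ∑ j ≠ 0, min 1 (ar l j)`
  (`g o' = 0` as `c` is surjective and `OutBox`; `min 1` is subadditive on nonnegative numbers), `tot ≥ ∑ j ≠ 0, ar l j`.
-/

namespace Pool.Agent.Helper98.LC

open Finset Real Pool.Agent.Helper38.LC2

variable {ι : Type} [DecidableEq ι]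

theorem kap_pi : 5.96 ^ 2 ≤ kap ^ 2 * (4 * π * A0) := by
  unfold kap A0 cT c1
  have h1 : (3.141592 : ℝ) < π := Real.pi_gt_d6
  have h2 : (1.73205 : ℝ) ≤ √3 := by
    refine Real.le_sqrt_of_sq_le ?_
    norm_num
  have h3 : (3.141592 : ℝ) * 1.73205 ≤ π * √3 :=
    mul_le_mul h1.le h2 (by norm_num) Real.pi_pos.le
  nlinarith

private theorem md_w_nonneg (G : Net) (d : V × Fin 6) : 0 ≤ G.w d := by
  unfold Net.w
  positivity

private theorem md_elen_nonneg (G : Net) (c : V → ι) (d : V × Fin 6) : 0 ≤ elen G c d := by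
  unfold elen
  exact sum_nonneg fun j _ => md_w_nonneg G _

private theorem md_per2_nonneg (G : Net) (c : V → ι) (n : ℕ) : 0 ≤ per2 G c n := by
  unfold per2
  exact sum_nonneg fun j _ => md_w_nonneg G _

private theorem md_tot_nonneg [Fintype ι] (G : Net) (c : V → ι) (o : ι) (n : ℕ) :
    0 ≤ tot G c o n := by
  unfold tot
  exact sum_nonneg fun j _ => ar_nonneg G c n j

private theorem md_Phi [Fintype ι] (G : Net) (c : V → ι) (o : ι) (n : ℕ) (η : ℝ) :
    Phi G c o n η = per2 G c n - 6 * ∑ i ∈ univ.filter (fun i => i ≠ o), min 1 (ar G c n i) -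
      η * tot G c o n := by
  unfold Phi tot
  rw [sum_add_distrib, ← mul_sum, ← mul_sum]
  ring

/-- the numerical part -/
private theorem md_real {s T X Ps Lam L η : ℝ} (hs : 60 ≤ s) (hs2 : s ^ 2 = T)
    (hη : η * s = 5.96) (hη0 : 0 ≤ η) (hX : X ≤ T) (hLam : 0 ≤ Lam) (hL : 0 ≤ L)
    (h1 : kap * Lam + kap1 * L ≤ Ps) (h2 : 4 * π * (A0 * (X - L / 5)) ≤ Lam ^ 2) :
    5.96 * s - 357600 ≤ Ps + η * (T - X) := by
  have hk : 0 < kap := by
    unfold kap cT c1
    norm_num
  have hk1 : kap1 = 2 / 100000 := by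
    unfold kap1 c1
    norm_num
  have hkl : 0 ≤ kap * Lam := mul_nonneg hk.le hLam
  have hTX : 0 ≤ η * (T - X) := mul_nonneg hη0 (by linarith)
  have hηT : η * T = 5.96 * s := by
    rw [← hs2, ← hη]
    ring
  rcases le_total (6 * s) Ps with h3 | h3
  · linarith
  · have h4 : L ≤ 300000 * s := by
      rw [hk1] at h1
      linarith
    have hA : 0 < 4 * π * A0 := by
      have := Real.pi_pos
      have := A0_pos
      positivity
    have h5 : 4 * π * A0 * (X - 60000 * s) ≤ Lam ^ 2 := by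
      refine le_trans ?_ h2
      have h6 : X - 60000 * s ≤ X - L / 5 := by linarith
      have h7 := mul_le_mul_of_nonneg_left h6 hA.le
      linarith
    have hPs : kap * Lam ≤ Ps := by
      have : 0 ≤ kap1 * L := mul_nonneg (by rw [hk1]; norm_num) hL
      linarith
    have key : η * (X - 60000 * s) ≤ Ps := by
      rcases le_total (X - 60000 * s) 0 with h6 | h6
      · have : η * (X - 60000 * s) ≤ 0 := mul_nonpos_of_nonneg_of_nonpos hη0 h6
        linarith
      · refine le_trans ?_ hPs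
        refine le_of_sq_le_sq ?_ hkl
        have h7 : 5.96 ^ 2 * (X - 60000 * s) ≤ (kap * Lam) ^ 2 := by
          calc 5.96 ^ 2 * (X - 60000 * s) ≤ kap ^ 2 * (4 * π * A0) * (X - 60000 * s) :=
                mul_le_mul_of_nonneg_right kap_pi h6
            _ = kap ^ 2 * (4 * π * A0 * (X - 60000 * s)) := by ring
            _ ≤ kap ^ 2 * Lam ^ 2 := mul_le_mul_of_nonneg_left h5 (by positivity)
            _ = (kap * Lam) ^ 2 := by ring
        refine le_trans ?_ h7
        have h8 : X - 60000 * s ≤ s ^ 2 := by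
          rw [hs2]
          linarith
        have h9 : η ^ 2 * (X - 60000 * s) ≤ 5.96 ^ 2 := by
          calc η ^ 2 * (X - 60000 * s) ≤ η ^ 2 * s ^ 2 :=
                mul_le_mul_of_nonneg_left h8 (by positivity)
            _ = (η * s) ^ 2 := by ring
            _ = 5.96 ^ 2 := by rw [hη]
        calc (η * (X - 60000 * s)) ^ 2 = η ^ 2 * (X - 60000 * s) * (X - 60000 * s) := by ring
          _ ≤ 5.96 ^ 2 * (X - 60000 * s) := mul_le_mul_of_nonneg_right h9 h6
    have h10 : η * (X - 60000 * s) + η * (T - X) = 5.96 * s - 357600 := by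
      have : η * (X - 60000 * s) + η * (T - X) = η * T - 60000 * (η * s) := by ring
      rw [this, hηT, hη]
      norm_num
    linarith

theorem model_conn [Fintype ι] (G : Net) {c₀ : V → ι} {o : ι} {n : ℕ} (h : OutBox c₀ o n)
    (hc : Conn c₀) :
    6 * ∑ i ∈ univ.filter (fun i => i ≠ o), min 1 (ar G c₀ n i) + 5.96 * √(tot G c₀ o n) -
      357600 ≤ per2 G c₀ n := by
  have hT0 := md_tot_nonneg G c₀ o n
  rcases lt_or_ge (tot G c₀ o n) 3600 with hT | hT
  · have h1 : ∑ i ∈ univ.filter (fun i => i ≠ o), min 1 (ar G c₀ n i) ≤ tot G c₀ o n := by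
      unfold tot
      exact sum_le_sum fun i _ => min_le_right _ _
    have h2 : √(tot G c₀ o n) ≤ 60 := by
      rw [Real.sqrt_le_left (by norm_num)]
      norm_num
      exact hT.le
    have h3 := md_per2_nonneg G c₀ n
    linarith
  · have hs : 60 ≤ √(tot G c₀ o n) := by
      refine Real.le_sqrt_of_sq_le ?_
      norm_num
      exact hT
    have hs2 : √(tot G c₀ o n) ^ 2 = tot G c₀ o n := Real.sq_sqrt hT0
    set s := √(tot G c₀ o n) with hsdef
    have hs0 : 0 < s := by linarith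
    set η : ℝ := 5.96 / s with hηdef
    have hη : η * s = 5.96 := div_mul_cancel₀ _ hs0.ne'
    have hη0 : 0 ≤ η := by positivity
    have hη1 : η ≤ 1 / 10 := by
      rw [hηdef, div_le_div_iff₀ hs0 (by norm_num)]
      linarith
    obtain ⟨c, hmin, hPhi, hX⟩ := exists_minimal G h hc η
    rw [md_Phi, md_Phi] at hPhi
    have hηT : η * tot G c₀ o n = 5.96 * s := by
      rw [← hs2, ← hη]
      ring
    have key : 5.96 * s - 357600 ≤
        (per2 G c n - 6 * ∑ i ∈ univ.filter (fun i => i ≠ o), min 1 (ar G c n i)) +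
          η * (tot G c₀ o n - tot G c o n) := by
      by_cases hx : ∃ x, c x ≠ o
      · have hl : NoLoop c := no_loop' hη0 hη1 (by rw [← hsdef, hη]; norm_num) hmin hX
        refine md_real hs hs2 hη hη0 hX (sum_nonneg fun d _ => lam_nonneg G c n d)
          (sum_nonneg fun d _ => md_elen_nonneg G c d) ?_ (curve_bound hη0 hη1 hmin hl)
        have := sum_local hη0 hη1 hmin hl hx
        linarith
      · push Not at hx
        have h1 : ∀ i ∈ univ.filter (fun i => i ≠ o), ar G c n i = 0 := by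
          intro i hi
          rw [mem_filter] at hi
          unfold ar
          rw [filter_false_of_mem, sum_empty, zero_div]
          intro x _ hxi
          exact hi.2 (hxi.symm.trans (hx x))
        have h2 : tot G c o n = 0 := by
          unfold tot
          exact sum_eq_zero h1
        have h3 : ∑ i ∈ univ.filter (fun i => i ≠ o), min 1 (ar G c n i) = 0 := by
          refine sum_eq_zero fun i hi => ?_
          rw [h1 i hi]
          norm_num
        have h4 := md_per2_nonneg G c n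
        rw [h2, h3, sub_zero, hηT]
        linarith
    have h5 : η * (tot G c₀ o n - tot G c o n) = 5.96 * s - η * tot G c o n := by
      rw [mul_sub, hηT]
    linarith

private theorem md_min_sum {κ : Type} (S : Finset κ) (f : κ → ℝ) (hf : ∀ i ∈ S, 0 ≤ f i) :
    min 1 (∑ i ∈ S, f i) ≤ ∑ i ∈ S, min 1 (f i) := by
  by_cases h : ∃ i ∈ S, 1 ≤ f i
  · obtain ⟨i, hi, h1⟩ := h
    refine (min_le_left _ _).trans ?_
    calc (1 : ℝ) = min 1 (f i) := (min_eq_left h1).symm
      _ ≤ ∑ i ∈ S, min 1 (f i) := by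
        refine single_le_sum (f := fun i => min 1 (f i)) (fun j hj => ?_) hi
        exact le_min zero_le_one (hf j hj)
  · push Not at h
    refine (min_le_right _ _).trans ?_
    refine sum_le_sum fun i hi => ?_
    rw [min_eq_right (h i hi).le]

theorem model {N : ℕ} (G : Net) (l : V → Fin (N + 1)) {n : ℕ} (h : OutBox l 0 n) :
    6 * ∑ j ∈ univ.filter (fun j : Fin (N + 1) => j ≠ 0), min 1 (ar G l n j) +
      5.96 * √(∑ j ∈ univ.filter (fun j : Fin (N + 1) => j ≠ 0), ar G l n j) - 357600 ≤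
      per2 G l n := by
  classical
  obtain ⟨κ, hfin, hdec, c, o', g, hout, hconn, hg, hsurj, hper, har⟩ := exists_comp G l 0 n h
  have hgo : g o' = 0 := by
    have hx : ((n : ℤ) + 1, (0 : ℤ)) ∉ box n := by
      unfold box
      rw [mem_product, mem_Icc]
      rintro ⟨⟨_, h2⟩, _⟩
      simp only at h2
      linarith
    rw [← hout _ hx, hg, h _ hx]
  have hmc := model_conn G hout hconn
  have hsub : univ.filter (fun i => g i ≠ 0) ⊆ univ.filter (fun i => i ≠ o') := by
    intro i hi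
    rw [mem_filter] at hi ⊢
    refine ⟨mem_univ _, ?_⟩
    rintro rfl
    exact hi.2 hgo
  have hsplit : ∀ f : κ → ℝ, ∑ j ∈ univ.filter (fun j : Fin (N + 1) => j ≠ 0),
      ∑ i ∈ univ.filter (fun i => g i = j), f i = ∑ i ∈ univ.filter (fun i => g i ≠ 0), f i := by
    intro f
    rw [← sum_fiberwise_of_maps_to (s := univ.filter (fun i => g i ≠ 0))
      (t := univ.filter (fun j : Fin (N + 1) => j ≠ 0)) (g := g)
      (fun i hi => by
        rw [mem_filter] at hi ⊢
        exact ⟨mem_univ _, hi.2⟩)]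
    refine sum_congr rfl fun j hj => ?_
    rw [mem_filter] at hj
    refine sum_congr ?_ fun _ _ => rfl
    ext i
    simp only [mem_filter, mem_univ, true_and]
    constructor
    · intro hi
      exact ⟨by rw [hi]; exact hj.2, hi⟩
    · exact fun hi => hi.2
  have h1 : ∑ j ∈ univ.filter (fun j : Fin (N + 1) => j ≠ 0), min 1 (ar G l n j) ≤
      ∑ i ∈ univ.filter (fun i => i ≠ o'), min 1 (ar G c n i) := by
    calc ∑ j ∈ univ.filter (fun j : Fin (N + 1) => j ≠ 0), min 1 (ar G l n j)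
        ≤ ∑ j ∈ univ.filter (fun j : Fin (N + 1) => j ≠ 0),
          ∑ i ∈ univ.filter (fun i => g i = j), min 1 (ar G c n i) := by
          refine sum_le_sum fun j hj => ?_
          rw [mem_filter] at hj
          rw [har j hj.2]
          exact md_min_sum _ _ fun i _ => ar_nonneg G c n i
      _ = ∑ i ∈ univ.filter (fun i => g i ≠ 0), min 1 (ar G c n i) := hsplit _
      _ ≤ _ := sum_le_sum_of_subset_of_nonneg hsub fun i _ _ =>
          le_min zero_le_one (ar_nonneg G c n i)
  have h2 : ∑ j ∈ univ.filter (fun j : Fin (N + 1) => j ≠ 0), ar G l n j ≤ tot G c o' n := by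
    calc ∑ j ∈ univ.filter (fun j : Fin (N + 1) => j ≠ 0), ar G l n j
        = ∑ j ∈ univ.filter (fun j : Fin (N + 1) => j ≠ 0),
          ∑ i ∈ univ.filter (fun i => g i = j), ar G c n i := by
          refine sum_congr rfl fun j hj => ?_
          rw [mem_filter] at hj
          exact har j hj.2
      _ = ∑ i ∈ univ.filter (fun i => g i ≠ 0), ar G c n i := hsplit _
      _ ≤ _ := by
          unfold tot
          exact sum_le_sum_of_subset_of_nonneg hsub fun i _ _ => ar_nonneg G c n i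
  have h3 := Real.sqrt_le_sqrt h2
  rw [hper] at hmc
  linarith

end Pool.Agent.Helper98.LC
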