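import Pool.Agent.Helper98.LC.F.Cancel
import Pool.Agent.Helper98.LC.C.NoLoop2
import Pool.Agent.Helper98.LC.B.Euler
import Pool.Agent.Helper38.LC2.Face
import Pool.Agent.Helper38.LC2.Local

/-!
# LC-F02: summation of the local inequalities

`a i = ar G c n i`, `F i = corners c n i`, `O i = (F i).filter (enb c · = o)`, `N i = (F i).card`, `M i = (O i).card`.
For every nonempty class `i ≠ o`: `a i > 0` (`ar_pos`), `2 ≤ N i` (`two_le_card'`), `2 M i ≤ N i` (`two_outer_le`), lengths:
`elen d ≤ 3 min 1 (a i)` for `d ∈ F i \ O i` (`elen_le_inner`), `elen d ≤ 3 min 1 (a i) + a i / 20` for `d ∈ O i` (`elen_le_outer`, `η ≤ 1/10`).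
`faceFacts2`, and `boundary_face` (if `M i ≥ 1`) or `interior_face` (if `M i = 0`, `O i = ∅`):
`6 min 1 (a i) + eps (6 - N i - M i) + kap ∑ O i, λ + kap1 ∑ O i, elen ≤ ∑ F i, elen + ∑ O i, elen + 3 ∑ (F i \ O i), ebul`,
`λ d = if a i < 2 then echd d else elen d`.  Empty classes contribute `0` to everything (no corners, `a i = 0`).
Sum over all nonempty `i ≠ o`: the `ebul` terms cancel (`sum_inner_zero`), `∑ i, ∑ F i, elen + ∑ i, ∑ O i, elen = per2` (`per2_edges`, `sum_outer` for
`elen`, `elen_eopp`), `∑ M i = (corners c n o).card` (`card_outer`), and by `euler`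
`∑ (6 - N i - M i) ≥ 6 ≥ 0` (`eps ≥ 0`).  `λ d` for `d ∈ O i` is the `lam` below at `eopp c d` (`echd_eopp`, `elen_eopp`, `enb c (eopp c d) = c d.1 = i`).
-/

namespace Pool.Agent.Helper98.LC

open Finset Real Pool.Agent.Helper38.LC2

variable {ι : Type} [DecidableEq ι]

/-- the length of an outer edge, or of its chord if the adjacent class is small -/
noncomputable def lam (G : Net) (c : V → ι) (n : ℕ) (d : V × Fin 6) : ℝ :=
  if ar G c n (enb c d) < 2 then echd G c d else elen G c d

private theorem sl_lam (G : Net) {c : V → ι} {o : ι} {n : ℕ} (h : OutBox c o n) {i : ι}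
    {d : V × Fin 6} (hd : d ∈ corners c n i) :
    lam G c n (eopp c d) = if ar G c n i < 2 then echd G c d else elen G c d := by
  obtain ⟨h1, h2⟩ := (mem_corners h i d).1 hd
  unfold lam
  rw [(eopp_corner h h1).2.2.1, h2, echd_eopp G h h1, elen_eopp G h h1]

private theorem sl_local [Fintype ι] {G : Net} {c : V → ι} {o : ι} {n : ℕ} {η : ℝ}
    (hη1 : η ≤ 1 / 10) (h : Minimal G c o n η) (hl : NoLoop c) {i : ι} (hi : i ≠ o)
    (hx : ∃ x, c x = i) :
    6 * min 1 (ar G c n i) + eps * (6 - ((corners c n i).card : ℝ) -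
      (((corners c n i).filter (fun d => enb c d = o)).card : ℝ)) +
        kap * ∑ d ∈ (corners c n i).filter (fun d => enb c d = o), lam G c n (eopp c d) +
        kap1 * ∑ d ∈ (corners c n i).filter (fun d => enb c d = o), elen G c d ≤
      ∑ d ∈ corners c n i, elen G c d +
        ∑ d ∈ (corners c n i).filter (fun d => enb c d = o), elen G c d +
        3 * ∑ d ∈ corners c n i \ (corners c n i).filter (fun d => enb c d = o), ebul G c d := by
  have ha := ar_pos h hi hx
  have h2 := two_le_card' h.out hl hi hx
  have hff := faceFacts2 G h.out hl hi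
  have hin : ∀ e ∈ corners c n i, enb c e ≠ o → elen G c e ≤ 3 * min 1 (ar G c n i) :=
    fun e he hne => elen_le_inner h hi he hne
  rcases Nat.eq_zero_or_pos ((corners c n i).filter (fun d => enb c d = o)).card with h0 | h0
  · have hO : (corners c n i).filter (fun d => enb c d = o) = ∅ := card_eq_zero.1 h0
    have h3 := interior_face hff ha h2 fun e he => hin e he fun hne => by
      have : e ∈ (corners c n i).filter (fun d => enb c d = o) := mem_filter.2 ⟨he, hne⟩
      rw [hO] at this
      exact absurd this (notMem_empty e)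
    rw [hO]
    simp only [card_empty, Nat.cast_zero, sub_zero, sum_empty, mul_zero, add_zero, sdiff_empty]
    exact h3
  · have h3 := boundary_face hff ha ((corners c n i).filter (fun d => enb c d = o))
      (filter_subset _ _) h0 (two_outer_le h.out i)
      (fun e he => by
        rw [mem_sdiff, mem_filter, not_and] at he
        exact hin e he.1 (he.2 he.1))
      (fun e he => by
        rw [mem_filter] at he
        have h4 := elen_le_outer h hi he.1 he.2
        have h5 : η * ar G c n i ≤ 1 / 10 * ar G c n i := mul_le_mul_of_nonneg_right hη1 ha.le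
        linarith)
    have h4 : ∑ d ∈ (corners c n i).filter (fun d => enb c d = o), lam G c n (eopp c d) =
        ∑ d ∈ (corners c n i).filter (fun d => enb c d = o),
          (if ar G c n i < 2 then echd G c d else elen G c d) :=
      sum_congr rfl fun d hd => sl_lam G h.out (mem_filter.1 hd).1
    rw [h4]
    exact h3

private theorem sl_empty (G : Net) {c : V → ι} {n : ℕ} {i : ι} (hx : ¬ ∃ x, c x = i) :
    ar G c n i = 0 ∧ corners c n i = ∅ := by
  constructor
  · unfold ar
    have h1 : (box n).filter (fun x => c x = i) = ∅ := by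
      apply filter_eq_empty_iff.mpr
      intro x _ hx'
      exact hx ⟨x, hx'⟩
    rw [h1, sum_empty, zero_div]
  · apply filter_eq_empty_iff.mpr
    intro d _ hd
    exact hx ⟨d.1, hd.2⟩

theorem sum_local [Fintype ι] {G : Net} {c : V → ι} {o : ι} {n : ℕ} {η : ℝ} (hη : 0 ≤ η)
    (hη1 : η ≤ 1 / 10) (h : Minimal G c o n η) (hl : NoLoop c) (hx : ∃ x, c x ≠ o) :
    6 * ∑ i ∈ univ.filter (fun i => i ≠ o), min 1 (ar G c n i) +
        kap * ∑ d ∈ corners c n o, lam G c n d + kap1 * ∑ d ∈ corners c n o, elen G c d ≤
      per2 G c n := by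
  classical
  have hloc : ∀ i ∈ univ.filter (fun i => i ≠ o),
      6 * min 1 (ar G c n i) + eps * ((if ∃ x, c x = i then (6 - ((corners c n i).card : ℝ)) else 0) -
      (((corners c n i).filter (fun d => enb c d = o)).card : ℝ)) +
        kap * ∑ d ∈ (corners c n i).filter (fun d => enb c d = o), lam G c n (eopp c d) +
        kap1 * ∑ d ∈ (corners c n i).filter (fun d => enb c d = o), elen G c d ≤
      ∑ d ∈ corners c n i, elen G c d +
        ∑ d ∈ (corners c n i).filter (fun d => enb c d = o), elen G c d +
        3 * ∑ d ∈ corners c n i \ (corners c n i).filter (fun d => enb c d = o), ebul G c d := by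
    intro i hi
    have hi' : i ≠ o := (mem_filter.1 hi).2
    by_cases hxi : ∃ x, c x = i
    · rw [if_pos hxi]
      exact sl_local hη1 h hl hi' hxi
    · obtain ⟨h1, h2⟩ := sl_empty G (n := n) hxi
      rw [if_neg hxi, h1, h2]
      simp
  have hsum := sum_le_sum hloc
  simp only [sum_add_distrib, ← mul_sum, sum_sub_distrib] at hsum
  have e1 := sum_inner_zero G h.out
  have e2 := sum_outer h.out (lam G c n)
  have e3 : ∑ i ∈ univ.filter (fun i => i ≠ o),
      ∑ d ∈ (corners c n i).filter (fun d => enb c d = o), elen G c d =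
      ∑ d ∈ corners c n o, elen G c d := by
    rw [← sum_outer h.out (elen G c)]
    refine sum_congr rfl fun i _ => sum_congr rfl fun d hd => ?_
    rw [elen_eopp G h.out ((mem_corners h.out i d).1 (mem_filter.1 hd).1).1]
  have e4 := per2_edges G h.out hl
  have e5 : ∑ i ∈ univ.filter (fun i => i ≠ o),
      (((corners c n i).filter (fun d => enb c d = o)).card : ℝ) = ((corners c n o).card : ℝ) := by
    rw [← Nat.cast_sum, card_outer h.out]
  have e6 : 6 + ((corners c n o).card : ℝ) ≤ ∑ i ∈ univ.filter (fun i => i ≠ o),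
      (if ∃ x, c x = i then (6 - ((corners c n i).card : ℝ)) else 0) := by
    have he := euler h.out h.conn hx
    rw [← sum_filter, filter_filter]
    have he' : (((6 + ((corners c n o).card : ℤ)) : ℤ) : ℝ) ≤
        ((∑ i ∈ univ.filter (fun i => i ≠ o ∧ ∃ x, c x = i),
          (6 - ((corners c n i).card : ℤ)) : ℤ) : ℝ) := by exact_mod_cast he
    push_cast at he'
    exact he'
  rw [e1, e2, e3, e5, ← e4] at hsum
  have heps : (0 : ℝ) ≤ eps := by unfold eps; norm_num
  have e7 : 0 ≤ eps * (∑ i ∈ univ.filter (fun i => i ≠ o),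
      (if ∃ x, c x = i then (6 - ((corners c n i).card : ℝ)) else 0) -
        ((corners c n o).card : ℝ)) := mul_nonneg heps (by linarith)
  linarith

end Pool.Agent.Helper98.LC
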